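import Pool.Agent.Helper42.SG.GoalsB

/-!
# Project SG, module B: the coefficients of the laws (goal `ECOEF`) by norm frames

`ECOEF` is deduced from the goals below: the law entries are elements of
`QuadraticAlgebra K[x, c] β 0` (`ω ^ 2 = β = B(x) B(c)`); an estimate `N(f) ≤ T a ^ dx b ^ dc` in the norm
frames with ALL radii `a, b ≥ 1` gives the degrees and the size of the coefficients at the same time.
All goals are independent.
-/

set_option autoImplicit false

open MvPolynomial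

namespace Pool.Agent.Helper12.SG

open WeierstrassCurve Height Height.AdmissibleAbsValues
open Pool.Agent.Helper29.BL Pool.Agent.Helper92.Ru Pool.Agent.Helper42.SG

noncomputable section

/-- NPSF: `NPS v r` is a norm frame on `K[[σ]]` for `r > 0`.
Proof. `rpw r` is multiplicative (`rpw r (α + β) = rpw r α * rpw r β`, `Finsupp.prod_add_index'`), `rpw r 0 = 1`,
`rpw r α > 0`. `const`: the coefficient of `algebraMap k = C k` is `k` at `0`, `0` otherwise.
`mul`: `coeff α (f g) = ∑ over antidiagonal α`; nonarchimedean: every term has `v(f_β)v(g_γ) r^α ≤ S T`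
(`IsNonarchimedean.apply_sum_le` or an induction over the finset);
not nonarchimedean: for a finite set `P` of exponents let `P'` be the set of all `β ≤ α ∈ P` (finite), then
`∑_(α ∈ P) v(coeff) r^α ≤ ∑_(β ∈ P') ∑_(γ ∈ P') v(f_β) r^β v(g_γ) r^γ ≤ S T`. `add`, `max`, `mono`, `nonneg`: easy. -/
def NPSF : Prop :=
  ∀ (K : Type) [Field K] (v : AbsoluteValue K ℝ) (σ : Type) (r : σ → ℝ), (∀ i, 0 < r i) →
    NFr v (NPS v r)

/-- the norm on `A[ω]`, `ω ^ 2 = β`, with `N(ω) ≤ w` -/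
def NQ {K : Type} [Field K] (v : AbsoluteValue K ℝ) {A : Type} [CommRing A] [Algebra K A]
    (N : A → ℝ → Prop) (w : ℝ) (β : A) (f : QuadraticAlgebra A β 0) (T : ℝ) : Prop :=
  ∃ S S' : ℝ, N f.re S ∧ N f.im S' ∧ (IsNonarchimedean v → max S (w * S') ≤ T) ∧
    (¬ IsNonarchimedean v → S + w * S' ≤ T)

/-- QAF: `NQ v N w β` is a norm frame on `QuadraticAlgebra A β 0` if `N` is one and `N(β) ≤ w ^ 2`, `w ≥ 1`.
Proof. `const`: `algebraMap k = ⟨algebraMap k, 0⟩`, `N 0 0` (from `const 0`), `S = v k`, `S' = 0`.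
`mul`: `re = f.re g.re + β f.im g.im`, `im = f.re g.im + f.im g.re`; archimedean:
`S T + w² S' T' + w (S T' + S' T) = (S + w S')(T + w T')`; nonarchimedean (use `NFr.max`):
`max (S T) (w² S' T')` and `w max (S T') (S' T)` are `≤ max(S, wS') max(T, wT')` (all numbers are `≥ 0` by
`NFr.nonneg`). The rest is easy. -/
def QAF : Prop :=
  ∀ (K : Type) [Field K] (v : AbsoluteValue K ℝ) (A : Type) [CommRing A] [Algebra K A]
    (N : A → ℝ → Prop), NFr v N → ∀ (w : ℝ) (β : A), 1 ≤ w → N β (w ^ 2) → NFr v (NQ v N w β)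

/-- LAWN: the law entries in a norm frame.
Proof. Let `c_v = cst v 1000 * bet W v` (`≥ 1`; `PlC` by the lemmas in `Pool/Agent/Helper29/BL/PS.lean`). In a frame
the numerals have norm `≤ v n` (`NFr.const`), which is `≤ 1` for nonarchimedean `v` and `≤ n` always; sums of `k`
terms of norm `≤ T` have norm `≤ k T` (`≤ T` if nonarchimedean). So for `N t m`, `N z m`, `m ≥ 1`:
`A(t,z)`, `B(t,z)` have norm `≤ c_v m ^ 4` and `C(t,z)` has norm `≤ c_v ^ 2 m ^ 6` (coefficients quadratic in the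
`b_i`). Induction on `e`: `N(Φ_e), N(Ψ_e) ≤ c_v ^ (4^e - 1) a ^ (4^e)` and
`N(R_e) ≤ c_v ^ (2 * 4^e) a ^ (2 (4^e - 1))` (`4 (4^e - 1) + 1 ≤ 4^(e+1) - 1`, `2 * 4^e + 6 (4^e - 1) + 2 ≤ 2 * 4^(e+1)`,
`2 (4^e - 1) + 6 * 4^e = 2 (4^(e+1) - 1)`). Then `U, T, S` have norm `≤ c_v (c_v^(4^e - 1) a^(4^e))^2 b^2` and
`η R_e` has norm `≤ w a^2 b^2 c_v^(2 * 4^e) a^(2 (4^e - 1))`. `B = c_v ^ 4`. -/
def LAWN : Prop :=
  ∀ (K : Type) [Field K] [NumberField K] (W : Affine K),
    ∃ B : AbsoluteValue K ℝ → ℝ, PlC B ∧ ∀ (v : AbsoluteValue K ℝ) (A : Type) [CommRing A]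
      [Algebra K A] (N : A → ℝ → Prop), NFr v N →
      ∀ (e : ℕ) (l : Bool) (x c η : A) (a b w : ℝ), 1 ≤ a → 1 ≤ b → 1 ≤ w →
        N x a → N c b → N η (w * a ^ 2 * b ^ 2) →
        N (law (W.map (algebraMap K A)) e l x c η).1
          (w * B v ^ (4 ^ e) * a ^ (2 * 4 ^ e) * b ^ 2) ∧
        N (law (W.map (algebraMap K A)) e l x c η).2
          (w * B v ^ (4 ^ e) * a ^ (2 * 4 ^ e) * b ^ 2)

/-- the norm of a polynomial in `x, c` with radii `a, b` -/
def NMP {K : Type} [Field K] (v : AbsoluteValue K ℝ) (a b : ℝ) (g : MvPolynomial (Fin 2) K)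
    (S : ℝ) : Prop :=
  NPS v ![a, b] (g : MvPowerSeries (Fin 2) K) S

/-- EXTR: degrees and coefficients from norms with all radii. Proof. `MvPolynomial.coeff_coe`;
`NPS` gives (with the one-element set `S = {α}` if `v` is not nonarchimedean)
`v (coeff α f.re) a ^ α 0 b ^ α 1 ≤ T v a ^ dx b ^ dc` and `w v a^2 b^2 v (coeff α f.im) a ^ α 0 b ^ α 1 ≤
T v a ^ dx b ^ dc`. With `a = b = 1` the bounds by `T v` (`w v ≥ 1`). With the trivial absolute value
(`AbsoluteValue.trivial`), `b = 1`, `a → ∞` (resp. `a = 1`, `b → ∞`): the degree statements. -/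
def EXTR : Prop :=
  ∀ (K : Type) [Field K] (β : MvPolynomial (Fin 2) K)
    (f : QuadraticAlgebra (MvPolynomial (Fin 2) K) β 0) (T w : AbsoluteValue K ℝ → ℝ)
    (dx dc : ℕ), (∀ v, 1 ≤ w v) →
    (∀ (v : AbsoluteValue K ℝ) (a b : ℝ), 1 ≤ a → 1 ≤ b →
      NQ v (NMP v a b) (w v * a ^ 2 * b ^ 2) β f (T v * a ^ dx * b ^ dc)) →
    (∀ α, coeff α f.re ≠ 0 → α 0 ≤ dx ∧ α 1 ≤ dc) ∧
    (∀ α, coeff α f.im ≠ 0 → α 0 + 2 ≤ dx ∧ α 1 + 2 ≤ dc) ∧
    ∀ v α, v (coeff α f.re) ≤ T v ∧ v (coeff α f.im) ≤ T v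

/-- LAWMAP: `Φ_e, Ψ_e, R_e` and the laws commute with ring homomorphisms (induction on `e`; `simp` with
`WeierstrassCurve.map_b₂` etc.). -/
def LAWMAP : Prop :=
  ∀ (R S : Type) [CommRing R] [CommRing S] (g : R →+* S) (W : WeierstrassCurve R) (e : ℕ),
    (∀ x : R, Ph (W.map g) e (g x) = (g (Ph W e x).1, g (Ph W e x).2) ∧
      Rr (W.map g) e (g x) = g (Rr W e x)) ∧
    ∀ (l : Bool) (x c η : R),
      law (W.map g) e l (g x) (g c) (g η) = (g (law W e l x c η).1, g (law W e l x c η).2)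

/-- PLD: a place constant is bounded at the finite places by a natural number `D`:
`|D|_v B_v ≤ 1` for all `v ∈ nonarchAbsVal`. Proof. `B v = 1` for almost all `v` (`FS` of `log B`, `B ≥ 1`); for each
of the finitely many other `v` there is a prime number `p` with `v p < 1` (`v` is the absolute value of a finite
place, `NumberField.FinitePlace`; the residue characteristic), so `v (p ^ k) B_v ≤ 1` for some `k`; take the
product of these `p ^ k` and use `v n ≤ 1` for `n : ℕ`. -/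
def PLD : Prop :=
  ∀ (K : Type) [Field K] [NumberField K] (B : AbsoluteValue K ℝ → ℝ), PlC B →
    ∃ D : ℕ, 0 < D ∧ ∀ v ∈ (nonarchAbsVal : Set (AbsoluteValue K ℝ)), v (D : K) * B v ≤ 1

/-- PINT: an element of absolute value `≤ 1` at all finite places is integral
(`IsDedekindDomain.HeightOneSpectrum.mem_integers_of_valuation_le_one`). -/
def PINT : Prop :=
  ∀ (K : Type) [Field K] [NumberField K] (x : K),
    (∀ v ∈ (nonarchAbsVal : Set (AbsoluteValue K ℝ)), v x ≤ 1) → IsIntegral ℤ x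

end

end Pool.Agent.Helper12.SG
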