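import Pool.Agent.Helper42.SG.Final

/-!
# Project SG (MP_a41896_nt): elliptic divisibility sequences over `ℚ`

From `GCDT` (over `ℚ`): the greatest common divisor of the denominators of `x(nP)` and `x(mQ)`.
-/

set_option autoImplicit false

open MvPolynomial

namespace Pool.Agent.Helper12.SG

open WeierstrassCurve Height Height.AdmissibleAbsValues
open Pool.Agent.Helper29.BL Pool.Agent.Helper92.Ru Pool.Agent.Helper42.SG

noncomputable section

section local_

variable {v : AbsoluteValue ℚ ℝ}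

theorem v_int_le (hv : IsNonarchimedean v) (n : ℤ) : v (n : ℚ) ≤ 1 := by
  have h1 : ∀ k : ℕ, v (k : ℚ) ≤ 1 := fun k => hv.apply_natCast_le_one
  obtain ⟨k, rfl | rfl⟩ := Int.eq_nat_or_neg n
  · rw [Int.cast_natCast]; exact h1 k
  · rw [Int.cast_neg, v.map_neg, Int.cast_natCast]; exact h1 k

/-- `|g|_v⁻¹ ≤ max(1, |x|_v)` for a divisor `g` of the denominator of `x` -/
theorem neg_log_le (hv : IsNonarchimedean v) (x : ℚ) (g : ℕ) (hg : 0 < g) (hd : g ∣ x.den) :
    -Real.log (v (g : ℚ)) ≤ Real.posLog (v x) := by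
  have hg0 : (g : ℚ) ≠ 0 := by exact_mod_cast hg.ne'
  have hvg : 0 < v (g : ℚ) := v.pos hg0
  have hd0 : (x.den : ℚ) ≠ 0 := by exact_mod_cast x.den_ne_zero
  have hvd : 0 < v (x.den : ℚ) := v.pos hd0
  obtain ⟨k, hk⟩ := hd
  have hvk : v (k : ℚ) ≤ 1 := by exact_mod_cast v_int_le hv k
  have h1 : v (x.den : ℚ) ≤ v (g : ℚ) := by
    have e : (x.den : ℚ) = (g : ℚ) * (k : ℚ) := by exact_mod_cast hk
    rw [e, map_mul]
    nlinarith
  have hx : v x * v (x.den : ℚ) = v (x.num : ℚ) := by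
    rw [← map_mul, Rat.mul_den_eq_num]
  unfold Real.posLog
  rcases lt_or_ge (v (x.den : ℚ)) 1 with h2 | h2
  · -- the numerator is a unit
    have hb := Int.isCoprime_iff_gcd_eq_one.mpr (show Int.gcd x.num (x.den : ℤ) = 1 by
      have := x.reduced
      rw [Nat.Coprime] at this
      rw [Int.gcd]
      simpa using this)
    obtain ⟨u, w, huw⟩ := hb
    have h3 : (1 : ℚ) = (u : ℚ) * (x.num : ℚ) + (w : ℚ) * (x.den : ℚ) := by exact_mod_cast huw.symm
    have h4 : (1 : ℝ) ≤ max (v ((u : ℚ) * (x.num : ℚ))) (v ((w : ℚ) * (x.den : ℚ))) := by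
      calc (1 : ℝ) = v 1 := (v.map_one).symm
        _ = v ((u : ℚ) * (x.num : ℚ) + (w : ℚ) * (x.den : ℚ)) := by rw [← h3]
        _ ≤ _ := hv _ _
    have h5 : v ((w : ℚ) * (x.den : ℚ)) < 1 := by
      rw [map_mul]
      have := v_int_le hv w
      have := v.nonneg (w : ℚ)
      nlinarith
    have h6 : (1 : ℝ) ≤ v (x.num : ℚ) := by
      rcases le_max_iff.mp h4 with h | h
      · rw [map_mul] at h
        have := v_int_le hv u
        have := v.nonneg (u : ℚ)
        have := v.nonneg (x.num : ℚ)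
        nlinarith
      · linarith
    apply le_max_of_le_right
    rw [← Real.log_inv]
    apply Real.log_le_log (inv_pos.mpr hvg)
    rw [inv_le_iff_one_le_mul₀ hvg]
    have hvx : 0 ≤ v x := v.nonneg x
    nlinarith
  · apply le_max_of_le_left
    have : 0 ≤ Real.log (v (g : ℚ)) := Real.log_nonneg (h2.trans h1)
    linarith

end local_

/-- the finite part of the gcd height over `ℚ` -/
theorem log_gcd_le (x y : ℚ) : Real.log (Nat.gcd x.den y.den) ≤
    PS (fun v : AbsoluteValue ℚ ℝ => min (Real.posLog (v x)) (Real.posLog (v y))) := by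
  classical
  set g : ℕ := Nat.gcd x.den y.den with hg
  have hg0 : 0 < g := Nat.gcd_pos_of_pos_left _ x.den_pos
  have hgQ : (g : ℚ) ≠ 0 := by exact_mod_cast hg0.ne'
  set f : AbsoluteValue ℚ ℝ → ℝ := fun v =>
    if IsNonarchimedean v then -Real.log (v (g : ℚ)) else 0 with hf
  have hFf : FS f := (FS_log hgQ).mono fun v _ hv => by
    simp only [hf]
    split_ifs
    · rw [hv, neg_zero]
    · rfl
  have hF2 : FS (fun v : AbsoluteValue ℚ ℝ => min (Real.posLog (v x)) (Real.posLog (v y))) :=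
    (FS_posLog x).min (FS_posLog y)
  have h1 : PS f ≤ PS (fun v : AbsoluteValue ℚ ℝ =>
      min (Real.posLog (v x)) (Real.posLog (v y))) := by
    apply PS_mono hFf hF2
    intro v
    simp only [hf]
    split_ifs with hv
    · exact le_min (neg_log_le hv x g hg0 (Nat.gcd_dvd_left _ _))
        (neg_log_le hv y g hg0 (Nat.gcd_dvd_right _ _))
    · exact le_min Real.posLog_nonneg Real.posLog_nonneg
  have h2 : PS f = Real.log g := by
    have h3 := PS_add hFf (FS_log hgQ)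
    rw [PS_log hgQ, add_zero] at h3
    rw [← h3]
    unfold PS
    have h4 : (∑ᶠ v : nonarchAbsVal (K := ℚ), (f v.val + Real.log (v.val (g : ℚ)))) = 0 := by
      refine finsum_eq_zero_of_forall_eq_zero fun v => ?_
      simp only [hf]
      rw [if_pos (isNonarchimedean v.val v.property)]
      ring
    rw [h4, add_zero]
    have h5 : (archAbsVal (K := ℚ)).map (fun v => f v + Real.log (v (g : ℚ))) =
        (archAbsVal (K := ℚ)).map (fun _ => Real.log g) := by
      apply Multiset.map_congr rfl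
      intro v hv
      have hv1 : NumberField.IsInfinitePlace v := NumberField.mem_multisetInfinitePlace.mp hv
      have hvn : ∀ n : ℕ, v (n : ℚ) = n := by
        intro n
        obtain ⟨φ, hφ⟩ := hv1
        rw [← hφ]
        simp [NumberField.place_apply]
      have hna : ¬ IsNonarchimedean v := by
        intro h
        have h6 := h.apply_natCast_le_one (n := 2)
        have h7 := hvn 2
        push_cast at h6 h7
        rw [h7] at h6
        norm_num at h6
      simp only [hf]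
      rw [if_neg hna, zero_add, hvn]
    rw [h5]
    have h6 : Multiset.card (archAbsVal (K := ℚ)) = 1 := by
      have := NumberField.totalWeight_eq_finrank ℚ
      rw [Module.finrank_self] at this
      exact this
    rw [Multiset.map_const', Multiset.sum_replicate, h6, one_smul]
  rw [← h2]
  exact h1

/-- EDS. Elliptic divisibility sequences: `D_n(P)^2` is the denominator of `x(nP)`. -/
def EDS : Prop :=
  ∀ (W₁ W₂ : Affine ℚ) [W₁.IsElliptic] [W₂.IsElliptic] (P : W₁.Point) (Q : W₂.Point) (ε : ℝ),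
    0 < ε → ∃ (Z : MvPolynomial (Fin 2) ℚ) (C : ℝ), Z ≠ 0 ∧ ∀ n m : ℤ,
      eval (fun i : Fin 2 => if i = 0 then xc (n • P) else xc (m • Q)) Z ≠ 0 →
      Real.log (Nat.gcd (xc (n • P)).den (xc (m • Q)).den) ≤ ε * ((n : ℝ) ^ 2 + (m : ℝ) ^ 2) + C

theorem eds_of (hcan : CAN) (hq : QSN) (hG : GCDT) : EDS := by
  intro W₁ W₂ _ _ P Q ε hε
  obtain ⟨H₁, c₁, hH₁⟩ := hcan ℚ W₁
  obtain ⟨H₂, c₂, hH₂⟩ := hcan ℚ W₂
  have p1 := hH₁.quad.nonneg P
  have p2 := hH₂.quad.nonneg Q
  set A : ℝ := 1 + H₁ P + H₂ Q with hA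
  have hA0 : 0 < A := by positivity
  obtain ⟨Z, C, hZ, hg⟩ := hG ℚ W₁ W₂ (AddSubgroup.zmultiples P) (AddSubgroup.zmultiples Q)
    ⟨{P}, by simp [AddSubgroup.zmultiples_eq_closure]⟩
    ⟨{Q}, by simp [AddSubgroup.zmultiples_eq_closure]⟩ (ε / A) (div_pos hε hA0)
  refine ⟨Z, ε / A * (c₁ + c₂) + C, hZ, fun n m hnm => ?_⟩
  have h1 := hg (n • P, m • Q) (AddSubgroup.zsmul_mem_zmultiples P n)
    (AddSubgroup.zsmul_mem_zmultiples Q m) hnm
  have h2 := log_gcd_le (xc (n • P)) (xc (m • Q))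
  have h3 : Real.log (Nat.gcd (xc (n • P)).den (xc (m • Q)).den) ≤
      ε / A * hh (n • P, m • Q) + C := h2.trans h1
  have h4 := (hq _ H₁ hH₁.quad).2.2.1 n P
  have h5 := (hq _ H₂ hH₂.quad).2.2.1 m Q
  have h6 := (abs_le.mp (hH₁.near (n • P))).1
  have h7 := (abs_le.mp (hH₂.near (m • Q))).1
  have h8 : hh ((n • P, m • Q) : W₁.Point × W₂.Point) ≤
      A * ((n : ℝ) ^ 2 + (m : ℝ) ^ 2) + (c₁ + c₂) := by
    unfold hh
    simp only
    have n0 : 0 ≤ (n : ℝ) ^ 2 := sq_nonneg _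
    have m0 : 0 ≤ (m : ℝ) ^ 2 := sq_nonneg _
    have e1 : (n : ℝ) ^ 2 * H₁ P ≤ (n : ℝ) ^ 2 * A := by
      apply mul_le_mul_of_nonneg_left _ n0
      rw [hA]; linarith
    have e2 : (m : ℝ) ^ 2 * H₂ Q ≤ (m : ℝ) ^ 2 * A := by
      apply mul_le_mul_of_nonneg_left _ m0
      rw [hA]; linarith
    nlinarith
  have h9 : ε / A * hh ((n • P, m • Q) : W₁.Point × W₂.Point) ≤
      ε / A * (A * ((n : ℝ) ^ 2 + (m : ℝ) ^ 2) + (c₁ + c₂)) :=
    mul_le_mul_of_nonneg_left h8 (div_pos hε hA0).le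
  have h10 : ε / A * (A * ((n : ℝ) ^ 2 + (m : ℝ) ^ 2) + (c₁ + c₂)) =
      ε * ((n : ℝ) ^ 2 + (m : ℝ) ^ 2) + ε / A * (c₁ + c₂) := by
    field_simp
  linarith

end

end Pool.Agent.Helper12.SG
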